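import Pool.Agent.H523.AH.Stm2

set_option autoImplicit false

/-! # From a pair of points to two consecutive points (Q3) -/

namespace Pool.Agent.H696.AH.Q3

open Finset Pool.Agent.H523.AH

theorem arg_quot {u w w' : ℂ} (hu : u ≠ 0) (hw : w ≠ 0) (hw' : w' ≠ 0)
    (h1 : 0 ≤ Complex.arg (w' / u)) (h2 : Complex.arg (w' / u) < Complex.arg (w / u))
    (h3 : Complex.arg (w / u) < Real.pi) :
    Complex.arg (w / w') = Complex.arg (w / u) - Complex.arg (w' / u) := by
  have hpi := Real.pi_pos
  have e1 : w / w' = (w / u) * (w' / u)⁻¹ := by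
    field_simp
  have hne : Complex.arg (w' / u) ≠ Real.pi := by linarith
  have e2 : Complex.arg (w' / u)⁻¹ = -Complex.arg (w' / u) := by
    rw [Complex.arg_inv, if_neg hne]
  rw [e1, (Complex.arg_mul_eq_add_arg_iff (div_ne_zero hw hu)
    (inv_ne_zero (div_ne_zero hw' hu))).2, e2]
  · ring
  · rw [e2]
    constructor <;> linarith

theorem arg_add {u w' z : ℂ} {a : ℝ} (hu : u ≠ 0) (hz : z ≠ 0) (hw' : w' ≠ 0)
    (h1 : 0 ≤ Complex.arg (w' / u)) (h2 : 0 < Complex.arg (z / w'))
    (h3 : Complex.arg (z / w') < a - Complex.arg (w' / u)) (h4 : a < Real.pi) :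
    Complex.arg (z / u) = Complex.arg (z / w') + Complex.arg (w' / u) := by
  have hpi := Real.pi_pos
  have e1 : z / u = (z / w') * (w' / u) := by
    field_simp
  rw [e1, (Complex.arg_mul_eq_add_arg_iff (div_ne_zero hz hw') (div_ne_zero hw' hu)).2]
  constructor <;> linarith

theorem pair_le {Z : Multiset ℂ} {a b : ℂ} (ha : a ∈ Z) (hb : b ∈ Z) (h : a ≠ b) :
    ({a, b} : Multiset ℂ) ≤ Z := by
  have hn : ({a, b} : Multiset ℂ).Nodup := by
    rw [Multiset.insert_eq_cons, Multiset.nodup_cons]
    exact ⟨by rw [Multiset.mem_singleton]; exact h, Multiset.nodup_singleton b⟩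
  rw [Multiset.le_iff_subset hn]
  intro x hx
  rw [Multiset.insert_eq_cons, Multiset.mem_cons, Multiset.mem_singleton] at hx
  rcases hx with rfl | rfl
  · exact ha
  · exact hb

theorem aux (Z : Multiset ℂ) (d : ℕ) (c R ε : ℝ) (hd : 1 ≤ d) (hZ : ∀ z ∈ Z, z ≠ 0)
    (hε : 0 < ε) (hε4 : ε ≤ 1 / 4) (hc : 4 * ε * R < c) (hR : 2 * R < d)
    {u v : ℂ} (hu : u ∈ Z) (hv : v ∈ Z) (h0 : 0 ≤ Complex.arg (v / u))
    (hoff : Off c R d (Complex.arg (v / u))) :
    ∃ u v : ℂ, ({u, v} : Multiset ℂ) ≤ Z ∧ 0 ≤ Complex.arg (v / u) ∧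
    (∀ w ∈ Z, ¬ (0 < Complex.arg (w / u) ∧ Complex.arg (w / u) < Complex.arg (v / u))) ∧
    d * Complex.arg (v / u) / (2 * Real.pi) ≤ R ∧
    ∀ k : ℕ, 1 ≤ k → ε ≤ |d * Complex.arg (v / u) / (2 * Real.pi) - k / 2| := by
  classical
  by_contra hcon
  have hpi := Real.pi_pos
  have hd0 : (0 : ℝ) < d := by exact_mod_cast hd
  have hstep : ∀ u' v' : ℂ, ({u', v'} : Multiset ℂ) ≤ Z → 0 ≤ Complex.arg (v' / u') →
      (∀ w ∈ Z, ¬ (0 < Complex.arg (w / u') ∧ Complex.arg (w / u') < Complex.arg (v' / u'))) →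
      d * Complex.arg (v' / u') / (2 * Real.pi) ≤ R →
      ∃ k : ℕ, 1 ≤ k ∧ |d * Complex.arg (v' / u') / (2 * Real.pi) - k / 2| < ε := by
    intro u' v' h1 h2 h3 h4
    by_contra h5
    refine hcon ⟨u', v', h1, h2, h3, h4, fun k hk => ?_⟩
    by_contra h6
    exact h5 ⟨k, hk, not_le.1 h6⟩
  have hu0 := hZ u hu
  have hRv : d * Complex.arg (v / u) / (2 * Real.pi) ≤ R := (le_abs_self _).trans hoff.1
  have hlt : Complex.arg (v / u) < Real.pi := by
    rw [div_le_iff₀ (by positivity)] at hRv
    by_contra h1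
    have h2 : (d : ℝ) * Real.pi ≤ d * Complex.arg (v / u) :=
      mul_le_mul_of_nonneg_left (not_lt.1 h1) hd0.le
    nlinarith
  have key : ∀ n : ℕ, ∀ w ∈ Z, 0 ≤ Complex.arg (w / u) →
      Complex.arg (w / u) ≤ Complex.arg (v / u) →
      (Z.toFinset.filter fun z => 0 ≤ Complex.arg (z / u) ∧
        Complex.arg (z / u) < Complex.arg (w / u)).card = n →
      ∃ j : ℤ, |d * Complex.arg (w / u) / (2 * Real.pi) - j / 2| ≤
        4 * ε * (d * Complex.arg (w / u) / (2 * Real.pi)) := by
    intro n
    induction n using Nat.strong_induction_on with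
    | _ n ih =>
      intro w hw hw0 hwv hcard
      rcases hw0.eq_or_lt with hz | hpos
      · refine ⟨0, ?_⟩
        rw [← hz]
        simp
      · obtain ⟨S, hS⟩ : ∃ S : Finset ℂ, S = Z.toFinset.filter fun z => 0 ≤ Complex.arg (z / u) ∧
          Complex.arg (z / u) < Complex.arg (w / u) := ⟨_, rfl⟩
        have hSm : ∀ z, z ∈ S ↔ z ∈ Z ∧ 0 ≤ Complex.arg (z / u) ∧
            Complex.arg (z / u) < Complex.arg (w / u) := by
          intro z
          rw [hS, mem_filter, Multiset.mem_toFinset]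
        have huS : u ∈ S := by
          rw [hSm, div_self hu0, Complex.arg_one]
          exact ⟨hu, le_rfl, hpos⟩
        obtain ⟨w', hw'S, hmax⟩ := S.exists_max_image (fun z => Complex.arg (z / u)) ⟨u, huS⟩
        obtain ⟨hw'Z, hw'0, hw'w⟩ := (hSm w').1 hw'S
        have hw'ne := hZ w' hw'Z
        have hwne := hZ w hw
        have hq := arg_quot hu0 hwne hw'ne hw'0 hw'w (hwv.trans_lt hlt)
        have hne : w' ≠ w := by
          rintro rfl
          exact lt_irrefl _ hw'w
        have hdist : d * Complex.arg (w / w') / (2 * Real.pi) =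
            d * Complex.arg (w / u) / (2 * Real.pi) -
              d * Complex.arg (w' / u) / (2 * Real.pi) := by
          rw [hq]
          ring
        have ht' : 0 ≤ d * Complex.arg (w' / u) / (2 * Real.pi) := by positivity
        have htw : d * Complex.arg (w / u) / (2 * Real.pi) ≤
            d * Complex.arg (v / u) / (2 * Real.pi) := by gcongr
        obtain ⟨k, hk, hkε⟩ := hstep w' w (pair_le hw'Z hw hne) (by linarith) (by
          rintro z hz ⟨h1, h2⟩
          rw [hq] at h2
          have h3 := arg_add hu0 (hZ z hz) hw'ne hw'0 h1 h2 (hwv.trans_lt hlt)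
          have h4 : z ∈ S := by
            rw [hSm]
            exact ⟨hz, by linarith, by linarith⟩
          have h5 := hmax z h4
          linarith) (by linarith)
        have hk1 : (1 : ℝ) ≤ k := by exact_mod_cast hk
        have hge : 1 / 4 ≤ d * Complex.arg (w / w') / (2 * Real.pi) := by
          have := (abs_lt.1 hkε).1
          linarith
        have hcard' : (Z.toFinset.filter fun z => 0 ≤ Complex.arg (z / u) ∧
            Complex.arg (z / u) < Complex.arg (w' / u)).card < n := by
          rw [← hcard, ← hS]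
          refine card_lt_card ?_
          rw [ssubset_iff_of_subset]
          · refine ⟨w', hw'S, ?_⟩
            rw [mem_filter]
            rintro ⟨-, -, h1⟩
            exact lt_irrefl _ h1
          · intro z hz
            rw [mem_filter, Multiset.mem_toFinset] at hz
            rw [hSm]
            exact ⟨hz.1, hz.2.1, hz.2.2.trans hw'w⟩
        obtain ⟨j, hj⟩ := ih _ hcard' w' hw'Z hw'0 (hw'w.le.trans hwv) rfl
        refine ⟨j + k, ?_⟩
        push_cast
        have e1 : d * Complex.arg (w / u) / (2 * Real.pi) - ((j : ℝ) + k) / 2 =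
            (d * Complex.arg (w' / u) / (2 * Real.pi) - j / 2) +
            (d * Complex.arg (w / w') / (2 * Real.pi) - k / 2) := by
          rw [hdist]
          ring
        rw [e1]
        refine (abs_add_le _ _).trans ?_
        have h6 : ε ≤ 4 * ε * (d * Complex.arg (w / w') / (2 * Real.pi)) := by
          nlinarith
        have h7 : 4 * ε * (d * Complex.arg (w / u) / (2 * Real.pi)) =
            4 * ε * (d * Complex.arg (w' / u) / (2 * Real.pi)) +
            4 * ε * (d * Complex.arg (w / w') / (2 * Real.pi)) := by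
          rw [hdist]
          ring
        linarith
  obtain ⟨j, hj⟩ := key _ v hv h0 le_rfl rfl
  have h1 := hoff.2 j
  have h2 : 4 * ε * (d * Complex.arg (v / u) / (2 * Real.pi)) ≤ 4 * ε * R :=
    mul_le_mul_of_nonneg_left hRv (by positivity)
  linarith

theorem main : S_Q3 := by
  intro Z d c R ε hd hZ hε hε4 hc0 hc hR hex
  obtain ⟨u, hu, v, hv, hoff⟩ := hex
  have hpi := Real.pi_pos
  have hd0 : (0 : ℝ) < d := by exact_mod_cast hd
  rcases le_or_gt 0 (Complex.arg (u / v)) with h0 | h0
  · exact aux Z d c R ε hd hZ hε hε4 hc hR hv hu h0 hoff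
  · have e1 : Complex.arg (v / u) = -Complex.arg (u / v) := by
      have h1 : v / u = (u / v)⁻¹ := (inv_div u v).symm
      rw [h1, Complex.arg_inv, if_neg (by linarith)]
    refine aux Z d c R ε hd hZ hε hε4 hc hR hu hv (by linarith) ?_
    rw [e1]
    have e2 : d * -Complex.arg (u / v) / (2 * Real.pi) =
        -(d * Complex.arg (u / v) / (2 * Real.pi)) := by ring
    refine ⟨?_, fun k => ?_⟩
    · rw [e2, abs_neg]
      exact hoff.1
    · have h2 := hoff.2 (-k)
      have h3 : d * -Complex.arg (u / v) / (2 * Real.pi) - (k : ℝ) / 2 =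
          -(d * Complex.arg (u / v) / (2 * Real.pi) - ((-k : ℤ) : ℝ) / 2) := by
        push_cast
        ring
      rw [h3, abs_neg]
      exact h2

end Pool.Agent.H696.AH.Q3
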